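import Pool.Agent.H57.BD.Stmts

set_option autoImplicit false

namespace Pool.BD

theorem sone : SONEStmt := by
  intro F lev hstar hlev k
  induction k with
  | zero =>
    intro S hS _ S₀ hS₀ e he ⟨x, hx, hxe⟩ _
    refine ⟨by omega, fun h0 => ?_⟩
    have h1 := hlev.zero S₀ hS₀ e he h0 S hS x hx
    have : e = x := le_antisymm h1 hxe
    rw [this]; exact hx
  | succ k ih =>
    intro S hS hk S₀ hS₀ e he ⟨x, hx, hxe⟩ ⟨y, hy, hey⟩
    have hk' : ∀ c ∈ S, k ≤ lev c := fun c hc => by have := hk c hc; omega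
    have h1 := ih S hS hk' S₀ hS₀ e he ⟨x, hx, hxe⟩ ⟨y, hy, hey⟩
    have h2 : ¬ lev e < k + 1 := by
      intro hlt
      have h3 : lev e = k := by have := h1.1; omega
      have h4 := h1.2 h3
      have h5 := hk e h4
      omega
    refine ⟨h2, fun hek => ?_⟩
    by_contra hne
    obtain ⟨h, hh, heh, e', he'h, hle'⟩ := hlev.pred S₀ hS₀ e he (by omega)
    have hlk : lev e' = k := by omega
    have he'S : e' ∉ S := fun hc => by have := hk e' hc; omega
    have hxe2 : x < e := lt_of_le_of_ne hxe (fun h => hne (h ▸ hx))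
    have hey2 : e < y := lt_of_le_of_ne hey (fun h => hne (h.symm ▸ hy))
    have hout : e' < x ∨ y < e' := by
      by_contra hcon
      push Not at hcon
      exact he'S ((ih S hS hk' h hh e' he'h ⟨x, hx, hcon.1⟩ ⟨y, hy, hcon.2⟩).2 hlk)
    rcases hout with h6 | h6
    · rcases hstar h hh S hS e' he'h he'S e heh hne (lt_trans h6 hxe2) with h7 | h7
      · exact h7 x hx ⟨h6, hxe2⟩
      · exact h7 y hy (Or.inr hey2)
    · rcases hstar h hh S hS e heh hne e' he'h he'S (lt_trans hey2 h6) with h7 | h7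
      · exact h7 y hy ⟨hey2, h6⟩
      · exact h7 x hx (Or.inl hxe2)

end Pool.BD
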