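import Pool.Agent.H57.BD.Stmts

set_option autoImplicit false

namespace Pool.BD

theorem sthr (h1 : STWOStmt) : STHRStmt := by
  intro F lev hstar hlev k S hS hk S' hS' hk' ⟨e', he', hle'⟩ x hx hxS' y hy hyS' hlx hly hxy u hu hlu
    ⟨hxu, huy⟩
  rcases hstar S hS S' hS' x hx hxS' y hy hyS' hxy with h3 | h3
  · exact h3 u hu ⟨hxu, huy⟩
  · have h4 := h3 e' he'
    push Not at h4
    have h5 : x < e' := lt_of_le_of_ne h4.1 (fun h => by rw [h] at hlx; omega)
    have h6 : e' < y := lt_of_le_of_ne h4.2 (fun h => by rw [h] at hle'; omega)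
    exact h1 F lev hstar hlev k S hS hk x hx y hy hlx hly S' hS' e' he' (by omega) ⟨h5, h6⟩

end Pool.BD
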