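import Pool.Agent.H57.BD.Stmts

set_option autoImplicit false

namespace Pool.BD

theorem stwo (h1 : SONEStmt) : STWOStmt := by
  intro F lev hstar hlev k S hS hk c₁ hc₁ c₂ hc₂ hl₁ hl₂ S₀ hS₀ e he hek ⟨hlt₁, hlt₂⟩
  have hone := h1 F lev hstar hlev k S hS hk S₀ hS₀ e he ⟨c₁, hc₁, hlt₁.le⟩ ⟨c₂, hc₂, hlt₂.le⟩
  have hek' : lev e = k := by have := hone.1; omega
  have heS := hone.2 hek'
  by_cases hk0 : k = 0
  · have h2 := hlev.zero S₀ hS₀ e he (by omega) S hS c₁ hc₁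
    omega
  · obtain ⟨h, hh, heh, e', he'h, hle'⟩ := hlev.pred S₀ hS₀ e he (by omega)
    have hn₁ : c₁ ∉ h := fun hc => by have := hlev.one h hh e' he'h c₁ hc; omega
    have hn₂ : c₂ ∉ h := fun hc => by have := hlev.one h hh e' he'h c₂ hc; omega
    rcases hstar S hS h hh c₁ hc₁ hn₁ c₂ hc₂ hn₂ (lt_trans hlt₁ hlt₂) with h3 | h3
    · exact h3 e heh ⟨hlt₁, hlt₂⟩
    · have h4 := h3 e' he'h
      push Not at h4
      have h5 := h1 F lev hstar hlev k S hS hk h hh e' he'h ⟨c₁, hc₁, h4.1⟩ ⟨c₂, hc₂, h4.2⟩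
      exact h5.1 (by omega)

end Pool.BD
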