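import Pool.Agent.H57.BD.Stmts

set_option autoImplicit false

namespace Pool.BD

theorem typa (h1 : SEGStmt) (h2 : MLStmt) : TYPAStmt := by
  intro I _ N E lev r T lo hi d hle hnc hpart hT
  obtain ⟨col, hcol⟩ := h1 E lev r hle hnc
  have key : ∀ i : Fin 108, ∃ (α : I → ℕ) (β : ℕ → ℕ), ∀ a, ∀ b < N, lo a ≤ b → b ≤ hi a →
      ((∃ c ∈ T a, col c = i ∧ c ≤ b ∧ b ≤ r c) ↔ α a < β b) := by
    intro i
    refine h2 I N E lev r T lo hi d (fun c => col c = i) hnc hpart (hcol i) ?_
    have hstep : ∀ a a', d a = d a' ∧ CRel N r T lo hi (fun c => col c = i) a a' → lo a < lo a' := by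
      rintro a a' ⟨hd, b, _, _, ⟨c, hcT, hci, hcb, hbr⟩, ⟨_, hb4⟩, hno⟩
      obtain ⟨hcE, hlc, hlo, _⟩ := hpart.mem a c hcT
      by_contra hcon
      push Not at hcon
      exact hno ⟨c, hT a' c hcE (hlc.trans hd) (le_trans hcon hlo) (le_trans hcb hb4), hci, hcb, hbr⟩
    have htr : ∀ x y, Relation.TransGen
        (fun a a' => d a = d a' ∧ CRel N r T lo hi (fun c => col c = i) a a') x y → lo x < lo y := by
      intro x y hxy
      induction hxy with
      | single h => exact hstep _ _ h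
      | tail _ h ih => exact lt_trans ih (hstep _ _ h)
    intro x hx
    exact lt_irrefl _ (htr x x hx)
  choose α β hαβ using key
  exact ⟨col, α, β, hαβ⟩

end Pool.BD
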